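import Pool.Agent.W606.PS.Stm

/-!
Project PS (planar product structure): a connected set with few `A`-vertices has small diameter.
-/

set_option autoImplicit false

open Set Relation

namespace Pool.Agent.W828.PS.Diam

open Pool.Agent.W606.PS

theorem exists_walk {V : Type} {G : SimpleGraph V} {S : Set V} {u v : V} (hu : u ∈ S)
    (p : ReflTransGen (fun a b => G.Adj a b ∧ a ∈ S ∧ b ∈ S) u v) :
    ∃ q : G.Walk u v, ∀ x ∈ q.support, x ∈ S := by
  induction p with
  | refl => exact ⟨SimpleGraph.Walk.nil, by simpa using hu⟩
  | @tail b c _ h ih =>
    obtain ⟨q, hq⟩ := ih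
    refine ⟨q.concat h.1, ?_⟩
    intro x hx
    rw [SimpleGraph.Walk.support_concat] at hx
    simp only [List.mem_append, List.mem_singleton, List.concat_eq_append] at hx
    rcases hx with hx | hx
    · exact hq x hx
    · rw [hx]; exact h.2.2

theorem length_le {A W : Type} {G : SimpleGraph (A ⊕ W)}
    (hG : ∀ w w' : W, ¬ G.Adj (Sum.inr w) (Sum.inr w')) {u v : A ⊕ W} (p : G.Walk u v) :
    p.support.length ≤ 2 * p.support.countP Sum.isLeft + (if u.isRight then 1 else 0) := by
  induction p with
  | @nil u =>
    rcases u with a | w <;> simp
  | @cons u v w h p ih =>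
    rcases u with a | x
    · simp only [SimpleGraph.Walk.support_cons, List.length_cons, List.countP_cons,
        Sum.isLeft_inl, Sum.isRight_inl, if_true, Bool.false_eq_true, if_false]
      split_ifs at ih <;> omega
    · rcases v with b | y
      · simp only [SimpleGraph.Walk.support_cons, List.length_cons, List.countP_cons,
          Sum.isLeft_inr, Sum.isRight_inr, if_true, Bool.false_eq_true, if_false,
          Sum.isRight_inl] at ih ⊢
        omega
      · exact absurd h (hG x y)

theorem main : S_DIAM := by
  classical
  intro A W _ _ G hG Q m hQ hm y hy y' hy'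
  obtain ⟨q, hq⟩ := exists_walk hy (hQ.2 y hy y' hy')
  have hp := q.bypass_isPath
  have hs : ∀ x ∈ q.bypass.support, x ∈ Q := fun x hx => hq x (q.support_bypass_subset hx)
  have h1 := length_le hG q.bypass
  have h2 : q.bypass.support.countP Sum.isLeft ≤ m := by
    rw [List.countP_eq_length_filter]
    have hnd : (q.bypass.support.filter Sum.isLeft).Nodup := hp.support_nodup.filter _
    rw [← List.toFinset_card_of_nodup hnd]
    refine le_trans ?_ hm
    rw [Set.ncard_eq_toFinset_card', ← Finset.card_image_of_injective _
      (Sum.inl_injective (α := A) (β := W))]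
    apply Finset.card_le_card
    intro x hx
    rw [List.mem_toFinset, List.mem_filter] at hx
    rcases x with a | w
    · rw [Finset.mem_image]
      exact ⟨a, by simpa using hs _ hx.1, rfl⟩
    · simp at hx
  have h3 : q.bypass.support.length = q.bypass.length + 1 := q.bypass.length_support
  have h4 : G.dist y y' ≤ q.bypass.length := SimpleGraph.dist_le _
  split_ifs at h1 <;> omega

end Pool.Agent.W828.PS.Diam
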