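import Pool.Agent.W787.PS.StmB

set_option linter.deprecated false

/-!
# Project PS: algebra of smooth functions and the Dirichlet form
-/

open MeasureTheory Set Metric Filter Topology
open scoped ContDiff

noncomputable section

namespace Pool.Agent.W828.PS

open Pool.Agent.W787.PS

section

variable {M : Type} [TopologicalSpace M] [MeasurableSpace M] (X : ClosedSurface M)

theorem idx_mem (x : M) : x ∈ (X.chart (X.idx x)).source := Classical.choose_spec (X.cover x)

theorem tgt (x : M) : X.chart (X.idx x) x ∈ (X.chart (X.idx x)).target :=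
  (X.chart _).map_source (idx_mem X x)

variable {X}

theorem diffAt {u : M → ℝ} (hu : X.Smooth u) (x : M) :
    DifferentiableAt ℝ (u ∘ (X.chart (X.idx x)).symm) (X.chart (X.idx x) x) :=
  ((hu (X.idx x)).contDiffAt ((X.chart _).open_target.mem_nhds (tgt X x))).differentiableAt
    (by simp)

theorem smooth_continuous {u : M → ℝ} (hu : X.Smooth u) : Continuous u := by
  rw [continuous_iff_continuousAt]
  intro x
  have h1 : ContinuousAt (u ∘ (X.chart (X.idx x)).symm) (X.chart (X.idx x) x) :=
    (diffAt hu x).continuousAt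
  have h2 : ContinuousAt (X.chart (X.idx x)) x :=
    (X.chart (X.idx x)).continuousAt (idx_mem X x)
  have h3 : ContinuousAt ((u ∘ (X.chart (X.idx x)).symm) ∘ (X.chart (X.idx x))) x :=
    ContinuousAt.comp h1 h2
  refine h3.congr ?_
  filter_upwards [(X.chart (X.idx x)).open_source.mem_nhds (idx_mem X x)] with y hy
  simp only [Function.comp_apply]
  rw [(X.chart (X.idx x)).left_inv hy]

theorem gip_comm (u v : M → ℝ) (x : M) : X.gip u v x = X.gip v u x := by
  unfold ClosedSurface.gip gdot
  congr 1
  ring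

theorem gip_add (u v v' : M → ℝ) (x : M) (hv : X.Smooth v) (hv' : X.Smooth v') :
    X.gip u (fun y => v y + v' y) x = X.gip u v x + X.gip u v' x := by
  unfold ClosedSurface.gip gdot
  have e : fderiv ℝ ((fun y => v y + v' y) ∘ (X.chart (X.idx x)).symm) (X.chart (X.idx x) x)
      = fderiv ℝ (v ∘ (X.chart (X.idx x)).symm) (X.chart (X.idx x) x)
        + fderiv ℝ (v' ∘ (X.chart (X.idx x)).symm) (X.chart (X.idx x) x) :=
    ((diffAt hv x).hasFDerivAt.add (diffAt hv' x).hasFDerivAt).fderiv
  rw [e, ← add_div]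
  congr 1
  simp only [ContinuousLinearMap.add_apply]
  ring

theorem gip_sub (u v v' : M → ℝ) (x : M) (hv : X.Smooth v) (hv' : X.Smooth v') :
    X.gip u (fun y => v y - v' y) x = X.gip u v x - X.gip u v' x := by
  unfold ClosedSurface.gip gdot
  have e : fderiv ℝ ((fun y => v y - v' y) ∘ (X.chart (X.idx x)).symm) (X.chart (X.idx x) x)
      = fderiv ℝ (v ∘ (X.chart (X.idx x)).symm) (X.chart (X.idx x) x)
        - fderiv ℝ (v' ∘ (X.chart (X.idx x)).symm) (X.chart (X.idx x) x) :=
    ((diffAt hv x).hasFDerivAt.sub (diffAt hv' x).hasFDerivAt).fderiv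
  rw [e, ← sub_div]
  congr 1
  simp only [ContinuousLinearMap.sub_apply]
  ring

theorem gip_mul (c : ℝ) (u v : M → ℝ) (x : M) (hv : X.Smooth v) :
    X.gip u (fun y => c * v y) x = c * X.gip u v x := by
  unfold ClosedSurface.gip gdot
  have e : fderiv ℝ ((fun y => c * v y) ∘ (X.chart (X.idx x)).symm) (X.chart (X.idx x) x)
      = c • fderiv ℝ (v ∘ (X.chart (X.idx x)).symm) (X.chart (X.idx x) x) :=
    ((diffAt hv x).hasFDerivAt.const_mul c).fderiv
  rw [e, ← mul_div_assoc]
  congr 1
  simp only [ContinuousLinearMap.smul_apply, smul_eq_mul]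
  ring

theorem gip_const (c : ℝ) (u : M → ℝ) (x : M) : X.gip u (fun _ => c) x = 0 := by
  unfold ClosedSurface.gip gdot
  have e : fderiv ℝ ((fun _ : M => c) ∘ (X.chart (X.idx x)).symm) (X.chart (X.idx x) x) = 0 :=
    (hasFDerivAt_const c _).fderiv
  rw [e]
  simp

theorem gip_self_nonneg (u : M → ℝ) (x : M) : 0 ≤ X.gip u u x := by
  unfold ClosedSurface.gip gdot
  apply div_nonneg _ (X.dens_pos _ _ (tgt X x)).le
  nlinarith [mul_self_nonneg (fderiv ℝ (u ∘ (X.chart (X.idx x)).symm) (X.chart (X.idx x) x) 1),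
    mul_self_nonneg (fderiv ℝ (u ∘ (X.chart (X.idx x)).symm) (X.chart (X.idx x) x) Complex.I)]

theorem gip_comp (ψ : ℝ → ℝ) (u v : M → ℝ) (x : M) (hψ : ContDiff ℝ ∞ ψ) (hv : X.Smooth v) :
    X.gip u (ψ ∘ v) x = deriv ψ (v x) * X.gip u v x := by
  unfold ClosedSurface.gip gdot
  have hx : (v ∘ (X.chart (X.idx x)).symm) (X.chart (X.idx x) x) = v x := by
    simp only [Function.comp_apply]
    rw [(X.chart (X.idx x)).left_inv (idx_mem X x)]
  have h1 : HasDerivAt ψ (deriv ψ (v x)) ((v ∘ (X.chart (X.idx x)).symm) (X.chart (X.idx x) x)) := by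
    rw [hx]
    exact (hψ.differentiable (by simp) (v x)).hasDerivAt
  have e : fderiv ℝ ((ψ ∘ v) ∘ (X.chart (X.idx x)).symm) (X.chart (X.idx x) x)
      = deriv ψ (v x) • fderiv ℝ (v ∘ (X.chart (X.idx x)).symm) (X.chart (X.idx x) x) :=
    (h1.comp_hasFDerivAt _ (diffAt hv x).hasFDerivAt).fderiv
  rw [e, ← mul_div_assoc]
  congr 1
  simp only [ContinuousLinearMap.smul_apply, smul_eq_mul]
  ring

end

theorem smo : S_SMO := by
  intro M _ _ X
  refine ⟨fun u hu => smooth_continuous hu, fun c i => contDiffOn_const,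
    fun u v hu hv i => (hu i).add (hv i), fun u v hu hv i => (hu i).sub (hv i),
    fun u v hu hv i => (hu i).mul (hv i), fun c u hu i => contDiffOn_const.mul (hu i),
    fun ψ u hψ hu i => hψ.comp_contDiffOn (hu i), gip_comm,
    fun u v v' x _ hv hv' => gip_add u v v' x hv hv',
    fun u v v' x _ hv hv' => gip_sub u v v' x hv hv',
    fun c u v x _ hv => gip_mul c u v x hv, gip_const, gip_self_nonneg,
    fun ψ u v x hψ _ hv => gip_comp ψ u v x hψ hv⟩

theorem dirf (h1 : S_GIP) (_h2 : S_SMO) : S_DIR := by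
  intro M _ _ _ _ _ X
  have hp : IsProbabilityMeasure X.vol := ⟨X.vol_univ⟩
  have hint : ∀ u v, X.Smooth u → X.Smooth v → Integrable (X.gip u v) X.vol := by
    intro u v hu hv
    exact (h1 M X u v hu hv).1.integrable_of_hasCompactSupport
      (HasCompactSupport.of_compactSpace _)
  have hadd : ∀ u v v', X.Smooth u → X.Smooth v → X.Smooth v' →
      X.dir u (fun y => v y + v' y) = X.dir u v + X.dir u v' := by
    intro u v v' hu hv hv'
    unfold ClosedSurface.dir
    rw [← integral_add (hint u v hu hv) (hint u v' hu hv')]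
    exact integral_congr_ae (Eventually.of_forall fun x => gip_add u v v' x hv hv')
  have hmul : ∀ (c : ℝ) u v, X.Smooth u → X.Smooth v →
      X.dir u (fun y => c * v y) = c * X.dir u v := by
    intro c u v _ hv
    unfold ClosedSurface.dir
    rw [← integral_const_mul]
    exact integral_congr_ae (Eventually.of_forall fun x => gip_mul c u v x hv)
  have hcomm : ∀ u v, X.dir u v = X.dir v u := by
    intro u v
    unfold ClosedSurface.dir
    exact integral_congr_ae (Eventually.of_forall fun x => gip_comm u v x)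
  have hnn : ∀ u, 0 ≤ X.dir u u := by
    intro u
    exact integral_nonneg fun x => gip_self_nonneg u x
  refine ⟨hint, ?_, hcomm, hadd, ?_, hmul, ?_, hnn⟩
  · intro u v hu hv
    have hq : ∀ t : ℝ, 0 ≤ X.dir v v * (t * t) + (2 * X.dir u v) * t + X.dir u u := by
      intro t
      have htv : X.Smooth fun y => t * v y := fun i => contDiffOn_const.mul (hv i)
      have hs : X.Smooth fun y => u y + t * v y := fun i => (hu i).add (htv i)
      have e := hadd (fun y => u y + t * v y) u (fun y => t * v y) hs hu htv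
      rw [hmul t _ v hs hv, hcomm _ u, hcomm _ v, hadd u u _ hu hu htv, hadd v u _ hv hu htv,
        hmul t u v hu hv, hmul t v v hv hv, hcomm v u] at e
      have h0 := hnn (fun y => u y + t * v y)
      rw [e] at h0
      linarith
    have hd := discrim_le_zero hq
    unfold discrim at hd
    rw [← Real.sqrt_mul (hnn u)]
    apply Real.abs_le_sqrt
    nlinarith
  · intro u v v' hu hv hv'
    unfold ClosedSurface.dir
    rw [← integral_sub (hint u v hu hv) (hint u v' hu hv')]
    exact integral_congr_ae (Eventually.of_forall fun x => gip_sub u v v' x hv hv')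
  · intro c u
    unfold ClosedSurface.dir
    rw [← integral_zero M ℝ (μ := X.vol)]
    exact integral_congr_ae (Eventually.of_forall fun x => gip_const c u x)

end Pool.Agent.W828.PS
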